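import Mathlib
import Pool.Agent.Bht.UDom79.Basic

/-! All characteristics, algebra row: the two letter algebra, shift matrices, the functional. -/

namespace Pool.Agent.Bht.AC17

open scoped BigOperators

attribute [local instance 100] LieRing.ofAssociativeRing

variable (K : Type*) [Field K]

/-- two letters -/
abbrev FA := FreeAlgebra K Bool

/-- the leg letter -/
noncomputable def ff : FA K := FreeAlgebra.ι K true

/-- the small letter -/
noncomputable def cc : FA K := FreeAlgebra.ι K false

/-- `ad_c^n f` (with `[x, c]` on the right) -/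
noncomputable def adc : ℕ → FA K
  | 0 => ff K
  | n + 1 => adc n * cc K - cc K * adc n

/-- matrices -/
abbrev RR (p : ℕ) := Matrix (Fin p) (Fin p) (FA K)

variable {K}

/-- a shifted diagonal -/
noncomputable def E (p : ℕ) (k : ℕ) (x : FA K) : RR K p := Matrix.of (fun i j => if (j : ℕ) = i + k then x else 0)

lemma E_zero (p k : ℕ) : E (K := K) p k 0 = 0 := by
  ext i j
  simp [E]

lemma E_add (p k : ℕ) (x y : FA K) : E p k (x + y) = E p k x + E p k y := by
  ext i j
  simp only [E, Matrix.of_apply, Matrix.add_apply]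
  split_ifs <;> simp

lemma E_sub (p k : ℕ) (x y : FA K) : E p k (x - y) = E p k x - E p k y := by
  ext i j
  simp only [E, Matrix.of_apply, Matrix.sub_apply]
  split_ifs <;> simp

lemma E_smul (p k : ℕ) (a : K) (x : FA K) : E p k (a • x) = a • E p k x := by
  ext i j
  simp only [E, Matrix.of_apply, Matrix.smul_apply]
  split_ifs <;> simp

lemma E_mul (p k l : ℕ) (x y : FA K) : E p k x * E p l y = E p (k + l) (x * y) := by
  ext i j
  simp only [E, Matrix.mul_apply, Matrix.of_apply]
  by_cases h : (j : ℕ) = i + (k + l)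
  · rw [if_pos h]
    have hj := j.2
    rw [Finset.sum_eq_single (⟨(i : ℕ) + k, by omega⟩ : Fin p)]
    · rw [if_pos rfl, if_pos (by simp only; omega)]
    · intro b _ hb
      rw [if_neg, zero_mul]
      intro hh
      exact hb (Fin.ext hh)
    · intro hh
      exact absurd (Finset.mem_univ _) hh
  · rw [if_neg h]
    apply Finset.sum_eq_zero
    intro b _
    by_cases h1 : (b : ℕ) = i + k
    · rw [if_neg (show ¬ (j : ℕ) = b + l by omega), mul_zero]
    · rw [if_neg h1, zero_mul]

lemma E_eq_zero (p k : ℕ) (hk : p ≤ k) (x : FA K) : E p k x = 0 := by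
  ext i j
  have := j.2
  simp only [E, Matrix.of_apply, Matrix.zero_apply]
  rw [if_neg (by omega)]

lemma E_ne_zero (p k : ℕ) (hk : k < p) (x : FA K) (hx : x ≠ 0) : E p k x ≠ 0 := by
  intro h
  have := congrFun (congrFun h (⟨0, by omega⟩ : Fin p)) (⟨k, hk⟩ : Fin p)
  simp only [E, Matrix.of_apply, Matrix.zero_apply] at this
  rw [if_pos (by simp)] at this
  exact hx this

lemma E_one (p : ℕ) : E (K := K) p 0 1 = 1 := by
  ext i j
  simp only [E, Matrix.of_apply, Matrix.one_apply, add_zero]
  by_cases h : i = j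
  · rw [if_pos h, if_pos (by rw [h])]
  · rw [if_neg h, if_neg (fun hh => h (Fin.ext hh.symm))]

/-- the bracket of shifted diagonals -/
lemma E_lie (p k l : ℕ) (x y : FA K) : ⁅E p k x, E p l y⁆ = E p (k + l) (x * y - y * x) := by
  rw [Ring.lie_def, E_mul, E_mul, E_sub, add_comm l k]

/-- product of the shifted diagonals of a list -/
lemma E_prod (p : ℕ) (xs : List (ℕ × FA K)) :
    (xs.map (fun q => E p q.1 q.2)).prod = E p (xs.map Prod.fst).sum (xs.map Prod.snd).prod := by
  induction xs with
  | nil => simp [E_one]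
  | cons q xs ih => rw [List.map_cons, List.prod_cons, ih, E_mul]; simp

/-! ### The two letter algebra -/

lemma ff_ne : ff K ≠ 0 := FreeAlgebra.ι_ne_zero _

lemma cc_ne : cc K ≠ 0 := FreeAlgebra.ι_ne_zero _

/-- the left coefficient of `f`: the algebra map to matrices sending `c` to a strictly block thing -/
lemma ff_mul_ne_cc_mul (x y : FA K) (h : ff K * x = cc K * y) : x = 0 := by
  -- evaluate in `End` of the module `FA × FA`
  let F : Module.End K (FA K × FA K) :=
    { toFun := fun v => (ff K * v.1, v.1), map_add' := by intro a b; simp [mul_add],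
      map_smul' := by intro a b; simp }
  let C : Module.End K (FA K × FA K) :=
    { toFun := fun v => (cc K * v.1, 0), map_add' := by intro a b; simp [mul_add],
      map_smul' := by intro a b; simp }
  let ρ : FA K →ₐ[K] Module.End K (FA K × FA K) := FreeAlgebra.lift K (fun b => if b then F else C)
  have hF : ρ (ff K) = F := by simp [ρ, ff]
  have hC : ρ (cc K) = C := by simp [ρ, cc]
  have h1 : ∀ z : FA K, (ρ z (1, 0)).1 = z := by
    intro z
    have key : ∀ z : FA K, ∀ v : FA K × FA K, (ρ z v).1 = z * v.1 := by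
      intro z
      induction z using FreeAlgebra.induction with
      | grade0 r => intro v; simp [ρ, Algebra.algebraMap_eq_smul_one]
      | grade1 b =>
        intro v
        cases b
        · have : ρ (FreeAlgebra.ι K false) = C := hC
          rw [this]; rfl
        · have : ρ (FreeAlgebra.ι K true) = F := hF
          rw [this]; rfl
      | mul a b ha hb =>
        intro v
        rw [map_mul, Module.End.mul_apply, ha, hb, mul_assoc]
      | add a b ha hb =>
        intro v
        rw [map_add, LinearMap.add_apply, Prod.fst_add, ha, hb, add_mul]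
    rw [key]; simp
  have h2 := congrArg (fun z => (ρ z (1, 0)).2) h
  simp only [map_mul, hF, hC, Module.End.mul_apply] at h2
  change (ρ x (1, 0)).1 = 0 at h2
  rw [h1] at h2
  exact h2

/-- `ad_c^n f` is `f c^n` modulo the right ideal of `c` -/
lemma adc_eq (n : ℕ) : ∃ y, adc K n = ff K * cc K ^ n + cc K * y := by
  induction n with
  | zero => exact ⟨0, by simp [adc]⟩
  | succ n ih =>
    obtain ⟨y, hy⟩ := ih
    refine ⟨y * cc K - adc K n, ?_⟩
    rw [adc, hy, pow_succ]
    noncomm_ring

lemma adc_ne (n : ℕ) : adc K n ≠ 0 := by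
  intro h
  obtain ⟨y, hy⟩ := adc_eq (K := K) n
  rw [h] at hy
  have h1 : ff K * cc K ^ n = cc K * (-y) := by rw [mul_neg]; exact eq_neg_of_add_eq_zero_left hy.symm
  exact pow_ne_zero n cc_ne (ff_mul_ne_cc_mul _ _ h1)

/-- `(ad_c^n f) F` is not in the right ideal of `c` -/
lemma adc_mul_ne (n : ℕ) (F x : FA K) (hF : F ≠ 0) : cc K * x ≠ adc K n * F := by
  intro h
  obtain ⟨y, hy⟩ := adc_eq (K := K) n
  rw [hy, add_mul, mul_assoc, mul_assoc] at h
  have h1 : ff K * (cc K ^ n * F) = cc K * (x - y * F) := by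
    rw [mul_sub, h]; noncomm_ring
  have h2 := ff_mul_ne_cc_mul _ _ h1
  exact mul_ne_zero (pow_ne_zero n cc_ne) hF h2

/-! ### The enveloping algebra -/

/-- the enveloping algebra of the matrices -/
abbrev UU (K : Type*) [Field K] (p : ℕ) := UniversalEnvelopingAlgebra K (RR K p)

/-- the inclusion -/
noncomputable def io (p : ℕ) (x : RR K p) : UU K p := UniversalEnvelopingAlgebra.ι K x

instance noZD (p : ℕ) : NoZeroDivisors (UU K p) := Pool.Agent.Bht.UDom79.noZeroDivisors K (RR K p)

/-- evaluation in the matrices -/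
noncomputable def ev (p : ℕ) : UU K p →ₐ[K] RR K p :=
  UniversalEnvelopingAlgebra.lift K (LieHom.id : RR K p →ₗ⁅K⁆ RR K p)

lemma ev_io (p : ℕ) (x : RR K p) : ev p (io p x) = x := by
  simp [ev, io]

lemma io_ne (p : ℕ) {x : RR K p} (hx : x ≠ 0) : io p x ≠ 0 := by
  intro h
  apply hx
  rw [← ev_io p x, h, map_zero]

lemma io_lie (p : ℕ) (x y : RR K p) : io p ⁅x, y⁆ = io p x * io p y - io p y * io p x := by
  have h := (UniversalEnvelopingAlgebra.ι K : RR K p →ₗ⁅K⁆ UU K p).map_lie x y
  simp only [Ring.lie_def] at h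
  simp only [io, Ring.lie_def]
  exact h

/-- products of shifted diagonals are not zero -/
lemma prod_ne (p : ℕ) (hp : 1 ≤ p) (xs : List (ℕ × FA K)) (hx : ∀ q ∈ xs, q.2 ≠ 0 ∧ q.1 < p) :
    (xs.map (fun q => io p (E p q.1 q.2))).prod ≠ 0 := by
  have hnt : Nontrivial (UU K p) := by
    refine ⟨⟨io p (E p 0 1), 0, io_ne p (E_ne_zero p 0 (by omega) 1 one_ne_zero)⟩⟩
  apply List.prod_ne_zero
  intro h
  rw [List.mem_map] at h
  obtain ⟨q, hq, h0⟩ := h
  exact io_ne p (E_ne_zero p q.1 (hx q hq).2 q.2 (hx q hq).1) h0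

/-- the functional -/
theorem tau_exists (p : ℕ) (hp : 2 ≤ p) (g : UU K p) (hg : g ≠ 0) (n : ℕ) (xs : List (ℕ × FA K))
    (hx : ∀ q ∈ xs, q.2 ≠ 0) (hsum : (xs.map Prod.fst).sum = p - 2) :
    ∃ τ : UU K p →ₗ[K] K, (∀ x, τ (g * io p (E p 0 (cc K)) * x) = 0) ∧
      τ (g * io p (E p 1 (adc K n)) * (xs.map (fun q => io p (E p q.1 q.2))).prod) ≠ 0 := by
  let S : Submodule K (UU K p) :=
    LinearMap.range (LinearMap.mulLeft K (g * io p (E p 0 (cc K))))
  have hnot : g * io p (E p 1 (adc K n)) * (xs.map (fun q => io p (E p q.1 q.2))).prod ∉ S := by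
    rintro ⟨x, hx1⟩
    rw [LinearMap.mulLeft_apply, mul_assoc, mul_assoc] at hx1
    have h1 : io p (E p 0 (cc K)) * x =
        io p (E p 1 (adc K n)) * (xs.map (fun q => io p (E p q.1 q.2))).prod := mul_left_cancel₀ hg hx1
    have h2 := congrArg (ev p) h1
    rw [map_mul, map_mul, ev_io, ev_io, map_list_prod, List.map_map] at h2
    have h3 : (ev p ∘ fun q : ℕ × FA K => io p (E p q.1 q.2)) = fun q => E p q.1 q.2 := by
      funext q; simp [ev_io]
    rw [h3, E_prod, E_mul, hsum] at h2
    have h4 := congrFun (congrFun h2 (⟨0, by omega⟩ : Fin p)) (⟨p - 1, by omega⟩ : Fin p)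
    rw [Matrix.mul_apply, Finset.sum_eq_single (⟨0, by omega⟩ : Fin p)] at h4
    · simp only [E, Matrix.of_apply] at h4
      rw [if_pos (by simp), if_pos (by simp; omega)] at h4
      have hF : (xs.map Prod.snd).prod ≠ 0 := by
        apply List.prod_ne_zero
        intro h
        rw [List.mem_map] at h
        obtain ⟨q, hq, h0⟩ := h
        exact hx q hq h0
      exact adc_mul_ne n _ _ hF h4
    · intro b _ hb
      simp only [E, Matrix.of_apply]
      rw [if_neg (fun hh => hb (Fin.ext (by simpa using hh))), zero_mul]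
    · intro hh
      exact absurd (Finset.mem_univ _) hh
  obtain ⟨τ, h1, h2⟩ := Submodule.exists_le_ker_of_notMem hnot
  exact ⟨τ, fun x => h2 ⟨x, by rw [LinearMap.mulLeft_apply]⟩, h1⟩

/-! ### General shifts, both sides (board AR) -/

lemma star_ff : star (ff K) = ff K := FreeAlgebra.star_ι _

lemma star_cc : star (cc K) = cc K := FreeAlgebra.star_ι _

lemma mul_ff_ne_mul_cc (x y : FA K) (h : x * ff K = y * cc K) : x = 0 := by
  have h1 := congrArg star h
  rw [star_mul, star_mul, star_ff, star_cc] at h1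
  have h2 := ff_mul_ne_cc_mul _ _ h1
  rw [← star_star x, h2, star_zero]

/-- `ad_c^n f` is `± c^n f` modulo the left ideal of `c` -/
lemma adc_eq_right (n : ℕ) : ∃ y, adc K n = (-1) ^ n * (cc K ^ n * ff K) + y * cc K := by
  induction n with
  | zero => exact ⟨0, by simp [adc]⟩
  | succ n ih =>
    obtain ⟨y, hy⟩ := ih
    refine ⟨adc K n - cc K * y, ?_⟩
    have e : cc K * ((-1) ^ n * (cc K ^ n * ff K)) = -((-1) ^ (n + 1) * (cc K ^ (n + 1) * ff K)) := by
      rcases neg_one_pow_eq_or (FA K) n with h | h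
      · rw [pow_succ (-1 : FA K), h, pow_succ' (cc K)]; noncomm_ring
      · rw [pow_succ (-1 : FA K), h, pow_succ' (cc K)]; noncomm_ring
    have e2 : adc K (n + 1) = adc K n * cc K - cc K * adc K n := rfl
    rw [e2]
    conv_lhs => rw [hy, mul_add (cc K), e]
    conv_rhs => rw [hy]
    noncomm_ring

lemma mul_adc_ne (n : ℕ) (F x : FA K) (hF : F ≠ 0) : x * cc K ≠ F * adc K n := by
  intro h
  obtain ⟨y, hy⟩ := adc_eq_right (K := K) n
  rw [hy, mul_add] at h
  have h1 : (F * ((-1) ^ n * cc K ^ n)) * ff K = (x - F * y) * cc K := by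
    rw [sub_mul, h]; noncomm_ring
  have h2 := mul_ff_ne_mul_cc _ _ h1
  rcases neg_one_pow_eq_or (FA K) n with h3 | h3
  · rw [h3, one_mul] at h2
    exact mul_ne_zero hF (pow_ne_zero n cc_ne) h2
  · rw [h3, neg_one_mul, mul_neg, neg_eq_zero] at h2
    exact mul_ne_zero hF (pow_ne_zero n cc_ne) h2

/-- the functional, letters of `c` on the left, any shifts -/
theorem tau_left (p : ℕ) (g : UU K p) (hg : g ≠ 0) (n k : ℕ) (xs : List (ℕ × FA K))
    (hx : ∀ q ∈ xs, q.2 ≠ 0) (hsum : k + (xs.map Prod.fst).sum < p) (m : ℕ) :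
    ∃ τ : UU K p →ₗ[K] K, (∀ x, τ (g * io p (E p m (cc K)) * x) = 0) ∧
      τ (g * io p (E p k (adc K n)) * (xs.map (fun q => io p (E p q.1 q.2))).prod) ≠ 0 := by
  let S : Submodule K (UU K p) :=
    LinearMap.range (LinearMap.mulLeft K (g * io p (E p m (cc K))))
  have hnot : g * io p (E p k (adc K n)) * (xs.map (fun q => io p (E p q.1 q.2))).prod ∉ S := by
    rintro ⟨x, hx1⟩
    rw [LinearMap.mulLeft_apply, mul_assoc, mul_assoc] at hx1
    have h1 : io p (E p m (cc K)) * x =
        io p (E p k (adc K n)) * (xs.map (fun q => io p (E p q.1 q.2))).prod := mul_left_cancel₀ hg hx1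
    have h2 := congrArg (ev p) h1
    rw [map_mul, map_mul, ev_io, ev_io, map_list_prod, List.map_map] at h2
    have h3 : (ev p ∘ fun q : ℕ × FA K => io p (E p q.1 q.2)) = fun q => E p q.1 q.2 := by
      funext q; simp [ev_io]
    rw [h3, E_prod, E_mul] at h2
    have h4 := congrFun (congrFun h2 (⟨0, by omega⟩ : Fin p)) (⟨k + (xs.map Prod.fst).sum, hsum⟩ : Fin p)
    have hF : (xs.map Prod.snd).prod ≠ 0 := by
      apply List.prod_ne_zero
      intro h
      rw [List.mem_map] at h
      obtain ⟨q, hq, h0⟩ := h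
      exact hx q hq h0
    by_cases hm : m < p
    · rw [Matrix.mul_apply, Finset.sum_eq_single (⟨m, hm⟩ : Fin p)] at h4
      · simp only [E, Matrix.of_apply] at h4
        rw [if_pos (by simp), if_pos (by simp)] at h4
        exact adc_mul_ne n _ _ hF h4
      · intro b _ hb
        simp only [E, Matrix.of_apply]
        rw [if_neg (fun hh => hb (Fin.ext (by simpa using hh))), zero_mul]
      · intro hh
        exact absurd (Finset.mem_univ _) hh
    · rw [E_eq_zero p m (by omega), zero_mul] at h4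
      simp only [E, Matrix.of_apply, Matrix.zero_apply] at h4
      rw [if_pos (by simp)] at h4
      exact mul_ne_zero (adc_ne n) hF h4.symm
  obtain ⟨τ, h1, h2⟩ := Submodule.exists_le_ker_of_notMem hnot
  exact ⟨τ, fun x => h2 ⟨x, by rw [LinearMap.mulLeft_apply]⟩, h1⟩

/-- the functional, letters of `c` on the right, any shifts -/
theorem tau_right (p : ℕ) (g : UU K p) (hg : g ≠ 0) (n k : ℕ) (xs : List (ℕ × FA K))
    (hx : ∀ q ∈ xs, q.2 ≠ 0) (hsum : (xs.map Prod.fst).sum + k < p) (m : ℕ) :
    ∃ τ : UU K p →ₗ[K] K, (∀ x, τ (x * io p (E p m (cc K)) * g) = 0) ∧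
      τ ((xs.map (fun q => io p (E p q.1 q.2))).prod * io p (E p k (adc K n)) * g) ≠ 0 := by
  let S : Submodule K (UU K p) :=
    LinearMap.range (LinearMap.mulRight K (io p (E p m (cc K)) * g))
  have hnot : (xs.map (fun q => io p (E p q.1 q.2))).prod * io p (E p k (adc K n)) * g ∉ S := by
    rintro ⟨x, hx1⟩
    rw [LinearMap.mulRight_apply, ← mul_assoc] at hx1
    have h1 : x * io p (E p m (cc K)) =
        (xs.map (fun q => io p (E p q.1 q.2))).prod * io p (E p k (adc K n)) := mul_right_cancel₀ hg hx1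
    have h2 := congrArg (ev p) h1
    rw [map_mul, map_mul, ev_io, ev_io, map_list_prod, List.map_map] at h2
    have h3 : (ev p ∘ fun q : ℕ × FA K => io p (E p q.1 q.2)) = fun q => E p q.1 q.2 := by
      funext q; simp [ev_io]
    rw [h3, E_prod, E_mul] at h2
    have h4 := congrFun (congrFun h2 (⟨0, by omega⟩ : Fin p)) (⟨(xs.map Prod.fst).sum + k, hsum⟩ : Fin p)
    have hF : (xs.map Prod.snd).prod ≠ 0 := by
      apply List.prod_ne_zero
      intro h
      rw [List.mem_map] at h
      obtain ⟨q, hq, h0⟩ := h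
      exact hx q hq h0
    by_cases hm : m ≤ (xs.map Prod.fst).sum + k
    · rw [Matrix.mul_apply, Finset.sum_eq_single (⟨(xs.map Prod.fst).sum + k - m, by omega⟩ : Fin p)] at h4
      · simp only [E, Matrix.of_apply] at h4
        rw [if_pos (by omega), if_pos (by simp)] at h4
        exact mul_adc_ne n _ _ hF h4
      · intro b _ hb
        simp only [E, Matrix.of_apply]
        rw [if_neg (fun hh => hb (Fin.ext (by simp only at hh ⊢; omega))), mul_zero]
      · intro hh
        exact absurd (Finset.mem_univ _) hh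
    · rw [Matrix.mul_apply, Finset.sum_eq_zero] at h4
      · simp only [E, Matrix.of_apply] at h4
        rw [if_pos (by simp)] at h4
        exact mul_ne_zero hF (adc_ne n) h4.symm
      · intro b _
        simp only [E, Matrix.of_apply]
        rw [if_neg (by omega), mul_zero]
  obtain ⟨τ, h1, h2⟩ := Submodule.exists_le_ker_of_notMem hnot
  refine ⟨τ, fun x => h2 ⟨x, ?_⟩, h1⟩
  rw [LinearMap.mulRight_apply, ← mul_assoc]

end Pool.Agent.Bht.AC17
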